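import Pool.Agent.T2H78.HypTrans2

/-!
# Monotonicity of the Hoffman bound for hyperbolic distance graphs

The hyperbolic plane is Mathlib's upper half-plane `ℍ` with its hyperbolic metric (curvature `-1`)
and its invariant measure `dx dy / y ^ 2`; it is isometric to the disc model by the Cayley map.
-/

namespace Pool.Agent.Results.MP_592f63_co.HoffmanMonotone

open MeasureTheory
open scoped UpperHalfPlane ComplexConjugate

/-- `(A_d f)(z)`: the mean value of `f` over the hyperbolic circle of radius `d` centred at `z`,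
with respect to normalised arc length (the one-dimensional Hausdorff measure of the hyperbolic
metric restricted to the circle and divided by its total mass). -/
noncomputable def circleMean (d : ℝ) (f : ℍ → ℂ) (z : ℍ) : ℂ :=
  ⨍ w in Metric.sphere z d, f w ∂(Measure.hausdorffMeasure 1 : Measure ℍ)

/-- The set of the numbers `⟨A_d f, f⟩` with `f` in `L²(ℍ)` of norm one. -/
def formValues (d : ℝ) : Set ℝ :=
  {t | ∃ f : ℍ → ℂ, MemLp f 2 ∧ ∫ z, ‖f z‖ ^ 2 = 1 ∧
    t = (∫ z, circleMean d f z * conj (f z)).re}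

/-- `M(A_d)` -/
noncomputable def upper (d : ℝ) : ℝ := sSup (formValues d)

/-- `m(A_d)` -/
noncomputable def lower (d : ℝ) : ℝ := sInf (formValues d)

/-- the Hoffman bound `h(d) = 1 - M(A_d) / m(A_d)` of the graph `ℍ(d)` -/
noncomputable def hoffman (d : ℝ) : ℝ := 1 - upper d / lower d

open Pool.Agent.T2H78.Hyp in
theorem norm_sq_toLp {F : ℝ × ℝ → ℂ} (hF : MemLp F 2) : ‖hF.toLp F‖ ^ 2 = ∫ z, ‖F z‖ ^ 2 := by
  have h1 : inner ℂ (hF.toLp F) (hF.toLp F) = ((∫ z, ‖F z‖ ^ 2 : ℝ) : ℂ) := by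
    rw [L2.inner_def, ← integral_complex_ofReal]
    have h2 : (hF.toLp F : ℝ × ℝ → ℂ) =ᵐ[volume] F := MemLp.coeFn_toLp _
    refine integral_congr_ae ?_
    filter_upwards [h2] with z e2
    rw [e2, inner_self_eq_norm_sq_to_K]
    push_cast
    rfl
  rw [inner_self_eq_norm_sq_to_K] at h1
  apply Complex.ofReal_injective
  rw [← h1, Complex.ofReal_pow]
  rfl

open Pool.Agent.T2H78.Hyp in
theorem mem_formValues_iff {d : ℝ} (hd : 0 < d) (t : ℝ) :
    t ∈ formValues d ↔ ∃ F : HH, ‖F‖ = 1 ∧ t = (inner ℂ (A d F) F).re := by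
  constructor
  · rintro ⟨f, hf, hn, ht⟩
    have hf' := (memLp_Fl f).1 hf
    refine ⟨hf'.toLp (Fl' f), ?_, ?_⟩
    · have h1 := norm_sq_toLp hf'
      rw [← norm_sq_Fl, hn] at h1
      have h2 := norm_nonneg (hf'.toLp (Fl' f))
      nlinarith
    · rw [ht]
      unfold circleMean
      rw [transfer hd hf']
      exact inner_re_symm (𝕜 := ℂ) _ _
  · rintro ⟨F, hF, ht⟩
    set f : ℍ → ℂ := fun w => Real.exp (Real.log w.im / 2) • F (PhH.symm w) with hfdef
    have hfl : Fl' f = F := by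
      funext z
      have h1 : PhH.symm (Ph z) = z := PhH.symm_apply_apply z
      simp only [Fl', hfdef]
      rw [h1, Ph_im, Real.log_exp, smul_smul, ← Real.exp_add]
      have : -z.1 / 2 + z.1 / 2 = 0 := by ring
      rw [this, Real.exp_zero, one_smul]
    have hmem : MemLp (Fl' f) 2 volume := by rw [hfl]; exact Lp.memLp F
    have htoLp : hmem.toLp (Fl' f) = F := by
      apply Lp.ext
      refine (MemLp.coeFn_toLp hmem).trans ?_
      rw [hfl]
    refine ⟨f, (memLp_Fl f).2 hmem, ?_, ?_⟩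
    · rw [norm_sq_Fl, ← norm_sq_toLp hmem, htoLp, hF, one_pow]
    · unfold circleMean
      rw [transfer hd hmem, htoLp, ht]
      exact inner_re_symm (𝕜 := ℂ) _ _

open Pool.Agent.T2H78.Hyp in
theorem abs_le_of_mem {d : ℝ} (hd : 0 < d) {t : ℝ} (ht : t ∈ formValues d) : |t| ≤ sph 0 d := by
  obtain ⟨F, hF, rfl⟩ := (mem_formValues_iff hd t).1 ht
  refine (Complex.abs_re_le_norm _).trans ((norm_inner_le_norm _ _).trans ?_)
  have := norm_A_apply_le d F
  rw [hF, mul_one] at this ⊢
  exact this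

open Pool.Agent.T2H78.Hyp in
theorem bddAbove {d : ℝ} (hd : 0 < d) : BddAbove (formValues d) :=
  ⟨sph 0 d, fun _ ht => (le_abs_self _).trans (abs_le_of_mem hd ht)⟩

open Pool.Agent.T2H78.Hyp in
theorem bddBelow {d : ℝ} (hd : 0 < d) : BddBelow (formValues d) :=
  ⟨-sph 0 d, fun _ ht => (abs_le.1 (abs_le_of_mem hd ht)).1⟩

open Pool.Agent.T2H78.Hyp in
theorem exists_near {d : ℝ} (hd : 0 < d) (l : ℝ) {ε : ℝ} (hε : 0 < ε) :
    ∃ t ∈ formValues d, |t - sph l d| ≤ ε := by
  obtain ⟨F, hF, h⟩ := approx_unit d l hε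
  exact ⟨_, (mem_formValues_iff hd _).2 ⟨F, hF, rfl⟩, h⟩

theorem nonempty {d : ℝ} (hd : 0 < d) : (formValues d).Nonempty := by
  obtain ⟨t, ht, _⟩ := exists_near hd 0 one_pos
  exact ⟨t, ht⟩

open Pool.Agent.T2H78.Hyp in
theorem upper_eq {d : ℝ} (hd : 0 < d) : upper d = sph 0 d := by
  apply le_antisymm
  · exact csSup_le (nonempty hd) fun _ ht => (le_abs_self _).trans (abs_le_of_mem hd ht)
  · refine le_of_forall_pos_le_add fun ε hε => ?_
    obtain ⟨t, ht, h⟩ := exists_near hd 0 hε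
    have h1 := le_csSup (bddAbove hd) ht
    have h2 := (abs_le.1 h).1
    unfold upper
    linarith

open Pool.Agent.T2H78.Hyp in
theorem lower_le {d : ℝ} (hd : 0 < d) (l : ℝ) : lower d ≤ sph l d := by
  refine le_of_forall_pos_le_add fun ε hε => ?_
  obtain ⟨t, ht, h⟩ := exists_near hd l hε
  have h1 := csInf_le (bddBelow hd) ht
  have h2 := (abs_le.1 h).2
  unfold lower
  linarith

open Pool.Agent.T2H78.Hyp in
theorem le_lower {d c : ℝ} (hd : 0 < d) (hc : c ≤ 0) (h : ∀ l, 0 < l → c ≤ sph l d) :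
    c ≤ lower d := by
  refine le_csInf (nonempty hd) fun t ht => ?_
  obtain ⟨F, hF, rfl⟩ := (mem_formValues_iff hd t).1 ht
  have := lower_bound hd hc h F
  rwa [hF, one_pow, mul_one] at this

open Pool.Agent.T2H78.Hyp in
theorem lower_neg {d : ℝ} (hd : 0 < d) : lower d < 0 := by
  obtain ⟨l, _, h⟩ := exists_sph_neg hd
  exact (lower_le hd l).trans_lt h

open Pool.Agent.T2H78.Hyp in
/-- Certificate: for every `d > 0` the supremum `M(A_d)` and the infimum `m(A_d)` are taken over a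
nonempty bounded set, and `m(A_d) < 0 < M(A_d)`, so that `h(d)` is genuine. -/
theorem certificate (d : ℝ) (hd : 0 < d) : (formValues d).Nonempty ∧ BddAbove (formValues d) ∧
    BddBelow (formValues d) ∧ lower d < 0 ∧ 0 < upper d :=
  ⟨nonempty hd, bddAbove hd, bddBelow hd, lower_neg hd, by rw [upper_eq hd]; exact sph0_pos d⟩

open Pool.Agent.T2H78.Hyp in
/-- **The Hoffman bound of the hyperbolic distance graphs is monotone**: `h(d) ≤ h(d')` whenever
`0 < d < d'`. -/
theorem result : ∀ d d' : ℝ, 0 < d → d < d' → hoffman d ≤ hoffman d' := by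
  intro d1 d2 hd1 h12
  have hd2 : 0 < d2 := hd1.trans h12
  have hM1 := sph0_pos d1
  have hM2 := sph0_pos d2
  have hm1 := lower_neg hd1
  have hm2 := lower_neg hd2
  have hc : sph 0 d2 * (lower d1 / sph 0 d1) ≤ lower d2 := by
    refine le_lower hd2 ?_ ?_
    · exact mul_nonpos_of_nonneg_of_nonpos hM2.le (div_nonpos_of_nonpos_of_nonneg hm1.le hM1.le)
    · intro l hl
      rcases le_or_gt 0 (sph l d2) with h | h
      · refine le_trans ?_ h
        exact mul_nonpos_of_nonneg_of_nonpos hM2.le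
          (div_nonpos_of_nonpos_of_nonneg hm1.le hM1.le)
      · obtain ⟨l1, _, h3⟩ := sph_compare hd1 h12 hl h
        have h4 : lower d1 / sph 0 d1 ≤ sph l d2 / sph 0 d2 :=
          (div_le_div_of_nonneg_right (lower_le hd1 l1) hM1.le).trans h3
        rw [le_div_iff₀ hM2] at h4
        linarith
  unfold hoffman
  rw [upper_eq hd1, upper_eq hd2]
  have h5 : sph 0 d2 / lower d2 ≤ sph 0 d1 / lower d1 := by
    rw [div_le_iff_of_neg hm2, div_mul_eq_mul_div, div_le_iff_of_neg hm1]
    have h6 : sph 0 d2 * (lower d1 / sph 0 d1) * sph 0 d1 = sph 0 d2 * lower d1 := by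
      field_simp
    nlinarith
  linarith

end Pool.Agent.Results.MP_592f63_co.HoffmanMonotone
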